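import Mathlib
import Pool.Agent.R494.SPL4
import Pool.Agent.N233.GM.Law2
import Pool.Agent.N719.SP.MainU

/-! # `n = x² + y² + z² + 4w²` with `2 ^ x + 2 ^ y + 2 ^ z + 1` chosen, growing sieve by a set of primes
(helper13; follows `Pool.Agent.N233.GM` and `Pool.Agent.R494.SPL4`) -/

set_option autoImplicit false
set_option linter.unusedSectionVars false

namespace Pool.Agent.J6H13.GS

open Filter Asymptotics MeasureTheory Pool.Agent.R494.SPL
open Pool.Agent.R528.RM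
open scoped Topology

/-- `m` has no prime factor in `P` which is at most `z m` -/
def Rough (P : Set ℕ) (z : ℕ → ℕ) (m : ℕ) : Prop := ∀ q ∈ P, q.Prime → q ≤ z m → ¬ q ∣ m

open Classical in
/-- `∏ (1 - 1 / q)⁻¹`, `q ≤ x` prime, `q ∈ P` -/
noncomputable def W (P : Set ℕ) (x : ℕ) : ℝ :=
  ∏ q ∈ (Finset.Icc 1 x).filter (fun q => q.Prime ∧ q ∈ P), (1 - (q : ℝ)⁻¹)⁻¹

open Classical in
/-- the density at `m` -/
noncomputable def rho (P : Set ℕ) (z : ℕ → ℕ) (m : ℕ) : ℝ :=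
  if Rough P z m then W P (z m) / Real.log m else 0

lemma W_ge (P : Set ℕ) (x : ℕ) : 1 ≤ W P x := by
  classical
  unfold W
  calc (1 : ℝ) = ∏ q ∈ (Finset.Icc 1 x).filter (fun q => q.Prime ∧ q ∈ P), (1 : ℝ) := by simp
    _ ≤ _ := Finset.prod_le_prod (fun _ _ => zero_le_one)
      (fun q hq => Pool.Agent.N233.GM.fac_ge q (Finset.mem_filter.1 hq).2.1)

lemma W_le (P : Set ℕ) (x : ℕ) : W P x ≤ Pool.Agent.N233.GM.W x := by
  classical
  unfold W Pool.Agent.N233.GM.W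
  refine Finset.prod_le_prod_of_subset_of_one_le ?_ ?_ ?_
  · intro q hq
    rw [Finset.mem_filter] at hq ⊢
    exact ⟨hq.1, hq.2.1⟩
  · intro q hq
    exact zero_le_one.trans (Pool.Agent.N233.GM.fac_ge q (Finset.mem_filter.1 hq).2.1)
  · intro q hq _
    exact Pool.Agent.N233.GM.fac_ge q (Finset.mem_filter.1 hq).2

/-- a sieve up to a constant times `(log log n) ^ 2` is short -/
lemma short (P : Set ℕ) (c : ℝ) (z : ℕ → ℕ)
    (hz : ∀ᶠ n : ℕ in atTop, (z n : ℝ) ≤ c * Real.log (Real.log n) ^ 2) :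
    ∀ᶠ n : ℕ in atTop, W P (z n) / Real.log n < 1 := by
  filter_upwards [Pool.Agent.N233.GM.short c z hz, Pool.Agent.N233.GM.logN.eventually_gt_atTop 0] with n h1 h2
  refine lt_of_le_of_lt ?_ h1
  exact div_le_div_of_nonneg_right (W_le P _) h2.le

open Classical in
/-- the density, at most one -/
noncomputable def rho1 (P : Set ℕ) (z : ℕ → ℕ) (m : ℕ) : ℝ :=
  if Rough P z m then min 1 (W P (z m) / Real.log m) else 0

lemma rho1_bounds (P : Set ℕ) (z : ℕ → ℕ) (n : ℕ) : 0 ≤ rho1 P z n ∧ rho1 P z n ≤ 1 := by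
  unfold rho1
  have h1 : 0 ≤ W P (z n) := zero_le_one.trans (W_ge _ _)
  have h2 := Real.log_natCast_nonneg n
  split_ifs
  · exact ⟨by positivity, min_le_left _ _⟩
  · exact ⟨le_rfl, zero_le_one⟩

lemma rho1_eq (P : Set ℕ) (z : ℕ → ℕ) (n : ℕ) (h : W P (z n) / Real.log n < 1) :
    rho1 P z n = rho P z n := by
  unfold rho1 rho
  rw [min_eq_right h.le]

section

variable {Ω : Type} {m0 : MeasurableSpace Ω} {μ : Measure Ω} [IsProbabilityMeasure μ]
  {ℱ : Filtration ℕ m0} {A : ℕ → Set Ω}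

/-- the densities follow the profile -/
lemma profile (P : Set ℕ) (z : ℕ → ℕ) (hV : ∀ᶠ n : ℕ in atTop, W P (z n) / Real.log n < 1)
    (hcop : ∀ n, ¬ Rough P z n → A n = ∅)
    (hd : ∀ᵐ ω ∂μ, Tendsto (fun n : ℕ => dens μ ℱ A n ω * Real.log n / W P (z (n + 1)))
      (atTop ⊓ 𝓟 {n : ℕ | Rough P z (n + 1)}) (𝓝 1)) :
    ∀ᵐ ω ∂μ, ∀ ε : ℝ, 0 < ε → ∀ᶠ n : ℕ in atTop,
      |dens μ ℱ A n ω - rho1 P z (n + 1)| ≤ ε * rho1 P z (n + 1) := by
  have hz' : ∀ᵐ ω ∂μ, ∀ n, ¬ Rough P z (n + 1) → dens μ ℱ A n ω = 0 := by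
    rw [ae_all_iff]
    intro n
    by_cases h : Rough P z (n + 1)
    · exact Eventually.of_forall fun ω h2 => absurd h h2
    · have h1 : dens μ ℱ A n =ᵐ[μ] 0 := by
        unfold dens
        rw [hcop _ h, Set.indicator_empty]
        rw [show (fun _ : Ω => (0 : ℝ)) = 0 from rfl, condExp_zero]
      filter_upwards [h1] with ω hω _
      exact hω
  filter_upwards [hz', hd] with ω hω1 hω2 ε hε
  have h1 : Tendsto (fun n : ℕ => dens μ ℱ A n ω * Real.log ((n + 1 : ℕ) : ℝ) / W P (z (n + 1)))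
      (atTop ⊓ 𝓟 {n : ℕ | Rough P z (n + 1)}) (𝓝 1) := by
    have h2 := hω2.mul (log_succ_ratio.mono_left (inf_le_left : atTop ⊓ 𝓟 {n : ℕ | Rough P z (n + 1)} ≤ atTop))
    rw [mul_one] at h2
    refine h2.congr' ?_
    apply Filter.Eventually.filter_mono inf_le_left
    filter_upwards [eventually_gt_atTop 1] with n hn
    have hn' : (1 : ℝ) < n := by exact_mod_cast hn
    have hl : 0 < Real.log (n : ℝ) := Real.log_pos hn'
    field_simp
  have h2 := (Metric.tendsto_nhds.1 h1) ε hε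
  rw [eventually_inf_principal] at h2
  have h3 : ∀ᶠ n : ℕ in atTop, W P (z (n + 1)) / Real.log ((n + 1 : ℕ) : ℝ) < 1 :=
    (tendsto_add_atTop_nat 1).eventually hV
  filter_upwards [h2, h3, eventually_gt_atTop 2] with n hn hn2 hn3
  by_cases hcp : Rough P z (n + 1)
  · have h4 := hn hcp
    have hl : 0 < Real.log ((n + 1 : ℕ) : ℝ) := Real.log_pos (by push_cast; have : (2 : ℝ) < n := by exact_mod_cast hn3
                                                                 linarith)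
    have hV : 0 < W P (z (n + 1)) := lt_of_lt_of_le one_pos (W_ge _ _)
    have e1 : rho1 P z (n + 1) = W P (z (n + 1)) / Real.log ((n + 1 : ℕ) : ℝ) := by
      unfold rho1
      rw [if_pos hcp, min_eq_right hn2.le]
    rw [e1]
    rw [Real.dist_eq] at h4
    have e2 : dens μ ℱ A n ω - W P (z (n + 1)) / Real.log ((n + 1 : ℕ) : ℝ) =
        (dens μ ℱ A n ω * Real.log ((n + 1 : ℕ) : ℝ) / W P (z (n + 1)) - 1) *
          (W P (z (n + 1)) / Real.log ((n + 1 : ℕ) : ℝ)) := by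
      field_simp
    have h5 : 0 < W P (z (n + 1)) / Real.log ((n + 1 : ℕ) : ℝ) := by positivity
    rw [e2, abs_mul, abs_of_pos h5]
    exact mul_le_mul_of_nonneg_right h4.le h5.le
  · rw [hω1 n hcp]
    have e1 : rho1 P z (n + 1) = 0 := by
      unfold rho1
      rw [if_neg hcp]
    rw [e1]
    simp

/-- the law for all `n` -/
theorem law3g (hA : ∀ n, MeasurableSet[ℱ n] (A n)) (P : Set ℕ) (z : ℕ → ℕ)
    (hprof : ∀ᵐ ω ∂μ, ∀ ε : ℝ, 0 < ε → ∀ᶠ n : ℕ in atTop,
      |dens μ ℱ A n ω - rho1 P z (n + 1)| ≤ ε * rho1 P z (n + 1)) :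
    ∀ᵐ ω ∂μ, ∀ η : ℝ, 0 < η → ∃ K : ℝ, ∀ᶠ n : ℕ in atTop,
      |∑ v ∈ quad3 n, In A (val3 v) ω - ∑ v ∈ quad3 n, rho1 P z (val3 v)| ≤
        η * ∑ v ∈ quad3 n, rho1 P z (val3 v) + K * Real.log n ^ 3 := by
  classical
  have h := weighted_law (μ := μ) (ℱ := ℱ) (A := A) hA (fun n => (rho1_bounds P z n).1) hprof
    (fun n => (quad3 n).filter (fun v => ¬ val3 v < n)) val3 (fun _ => 12) 1
    (by
      filter_upwards [eventually_ge_atTop 12] with x hx
      rw [pow_one]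
      exact hx)
    (Eventually.of_forall fun n P => (Finset.card_le_card
      (Finset.filter_subset_filter _ (Finset.filter_subset _ _))).trans (fibre3 n P))
    id tendsto_id
    (Eventually.of_forall fun n v hv => not_lt.1 (Finset.mem_filter.1 hv).2)
  filter_upwards [h] with ω hω η hη
  obtain ⟨K, hK0, hK⟩ := hω η hη
  refine ⟨12 * K + 54, ?_⟩
  filter_upwards [hK, log_cube, eventually_ge_atTop 1] with n h1 h2 h4
  obtain ⟨l1, l2⟩ := h2
  have hsplit : ∀ f : ℕ × ℕ × ℕ × ℕ → ℝ, ∑ v ∈ quad3 n, f v =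
      ∑ v ∈ (quad3 n).filter (fun v => val3 v < n), f v +
        ∑ v ∈ (quad3 n).filter (fun v => ¬ val3 v < n), f v :=
    fun f => (Finset.sum_filter_add_sum_filter_not _ _ _).symm
  rw [hsplit, hsplit (fun v => rho1 P z (val3 v))]
  have hcard : (((quad3 n).filter (fun v => val3 v < n)).card : ℝ) ≤ 27 * Real.log n ^ 3 :=
    le_trans (by exact_mod_cast small3 n) l1
  have s1 : 0 ≤ ∑ v ∈ (quad3 n).filter (fun v => val3 v < n), In A (val3 v) ω :=
    Finset.sum_nonneg fun v _ => In_nonneg _ _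
  have s2 : ∑ v ∈ (quad3 n).filter (fun v => val3 v < n), In A (val3 v) ω ≤ 27 * Real.log n ^ 3 := by
    refine le_trans ?_ hcard
    refine (Finset.sum_le_card_nsmul _ _ 1 fun v _ => In_le _ _).trans ?_
    simp
  have s3 : 0 ≤ ∑ v ∈ (quad3 n).filter (fun v => val3 v < n), rho1 P z (val3 v) :=
    Finset.sum_nonneg fun v _ => (rho1_bounds P z _).1
  have s4 : ∑ v ∈ (quad3 n).filter (fun v => val3 v < n), rho1 P z (val3 v) ≤ 27 * Real.log n ^ 3 := by
    refine le_trans ?_ hcard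
    refine (Finset.sum_le_card_nsmul _ _ 1 fun v _ => (rho1_bounds P z _).2).trans ?_
    simp
  have s5 : K * ((12 : ℕ) * Real.log n) ≤ 12 * K * Real.log n ^ 3 := by
    push_cast
    nlinarith
  obtain ⟨t1, t2⟩ := abs_le.1 h1
  have s6 : 0 ≤ η * ∑ v ∈ (quad3 n).filter (fun v => val3 v < n), rho1 P z (val3 v) :=
    mul_nonneg hη.le s3
  have s7 : 0 ≤ Real.log (n : ℝ) ^ 3 := pow_nonneg (Real.log_natCast_nonneg n) 3
  rw [abs_le]
  constructor <;> nlinarith

end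

/-- the two densities differ by a bounded amount -/
lemma rho_bdd (P : Set ℕ) (z : ℕ → ℕ) (hV : ∀ᶠ n : ℕ in atTop, W P (z n) / Real.log n < 1) :
    ∃ C : ℝ, 0 ≤ C ∧ ∀ m : ℕ, 0 ≤ rho P z m ∧ rho P z m ≤ C := by
  obtain ⟨m1, hm1⟩ := eventually_atTop.1 hV
  have h0 : ∀ m : ℕ, 0 ≤ W P (z m) / Real.log m := fun m =>
    div_nonneg (zero_le_one.trans (W_ge _ _)) (Real.log_natCast_nonneg m)
  refine ⟨1 + ∑ m ∈ Finset.range m1, W P (z m) / Real.log m,
    add_nonneg zero_le_one (Finset.sum_nonneg fun m _ => h0 m), fun m => ?_⟩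
  have h1 : 0 ≤ rho P z m := by
    unfold rho
    split_ifs
    · exact h0 m
    · exact le_rfl
  have h2 : rho P z m ≤ W P (z m) / Real.log m := by
    unfold rho
    split_ifs
    · exact le_rfl
    · exact h0 m
  refine ⟨h1, h2.trans ?_⟩
  have h3 : 0 ≤ ∑ m ∈ Finset.range m1, W P (z m) / Real.log m := Finset.sum_nonneg fun m _ => h0 m
  rcases lt_or_ge m m1 with h | h
  · have h4 := Finset.single_le_sum (f := fun m : ℕ => W P (z m) / Real.log m) (fun m _ => h0 m)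
      (Finset.mem_range.2 h)
    linarith
  · have := hm1 m h
    linarith

/-- the expected numbers for `rho` and `rho1` -/
lemma rho_diff (P : Set ℕ) (z : ℕ → ℕ) (hV : ∀ᶠ n : ℕ in atTop, W P (z n) / Real.log n < 1) :
    ∃ C : ℝ, 0 ≤ C ∧ ∀ᶠ n : ℕ in atTop,
      |∑ v ∈ quad3 n, rho1 P z (val3 v) - ∑ v ∈ quad3 n, rho P z (val3 v)| ≤ C * Real.log n ^ 3 := by
  classical
  obtain ⟨C, hC0, hC⟩ := rho_bdd P z hV
  obtain ⟨m1, hm1⟩ := eventually_atTop.1 hV
  refine ⟨(1 + C) * 27, by positivity, ?_⟩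
  filter_upwards [log_cube, eventually_ge_atTop m1] with n h2 h4
  obtain ⟨l1, l2⟩ := h2
  have hcard : (((quad3 n).filter (fun v => val3 v < n)).card : ℝ) ≤ 27 * Real.log n ^ 3 :=
    le_trans (by exact_mod_cast small3 n) l1
  rw [← Finset.sum_sub_distrib]
  rw [← Finset.sum_filter_add_sum_filter_not (quad3 n) (fun v => val3 v < n)]
  have e1 : ∑ v ∈ (quad3 n).filter (fun v => ¬ val3 v < n), (rho1 P z (val3 v) - rho P z (val3 v)) = 0 := by
    refine Finset.sum_eq_zero fun v hv => ?_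
    have h5 := not_lt.1 (Finset.mem_filter.1 hv).2
    rw [rho1_eq P z _ (hm1 _ (h4.trans h5)), sub_self]
  rw [e1, add_zero]
  refine (Finset.abs_sum_le_sum_abs _ _).trans ?_
  have e2 : ∀ v ∈ (quad3 n).filter (fun v => val3 v < n), |rho1 P z (val3 v) - rho P z (val3 v)| ≤ 1 + C := by
    intro v _
    obtain ⟨g1, g2⟩ := rho1_bounds P z (val3 v)
    obtain ⟨g3, g4⟩ := hC (val3 v)
    rw [abs_le]
    constructor <;> linarith
  refine (Finset.sum_le_card_nsmul _ _ (1 + C) e2).trans ?_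
  rw [nsmul_eq_mul]
  nlinarith

end Pool.Agent.J6H13.GS
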