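import Mathlib
import Pool.Agent.J6H13.GS.Law3

/-! # Many rough quadruples for the regular `n` -/

set_option autoImplicit false
set_option linter.unusedSectionVars false

namespace Pool.Agent.J6H13.GS

open Filter Asymptotics MeasureTheory Pool.Agent.R494.SPL
open Pool.Agent.R528.RM
open scoped Topology

/-- the exceptional primes -/
def Exceptional (n q : ℕ) : Prop :=
  (∃ l : ℕ, l.Prime ∧ 5 ≤ l ∧ l ^ 2 ∣ orderOf (2 : ZMod q) ∧
    ((n % 4 = 1 ∧ l % 4 = 3 ∧ (l : ℤ) ∣ 9 * n - 8) ∨ (n % 4 = 3 ∧ l % 3 = 2 ∧ (l : ℤ) ∣ 3 * n - 8))) ∨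
  ((n % 4 = 1 ∧ n % 7 = 4 ∧ q = 113) ∨ (n % 4 = 3 ∧ n % 5 = 1 ∧ q = 41))

/-- no prime `q ≤ y` in `P`, `q ≠ 2`, is exceptional for the odd number `n` -/
def Regular (P : Set ℕ) (y : ℝ) (n : ℕ) : Prop :=
  Odd n ∧ ∀ q ∈ P, q.Prime → q ≠ 2 → (q : ℝ) ≤ y → ¬ Exceptional n q

/-- no square of a prime between `c log n` and `(log n)²` divides `n` -/
def NoSquare (c : ℝ) (n : ℕ) : Prop :=
  ∀ l : ℕ, l.Prime → c * Real.log n < l → (l : ℝ) ≤ (Real.log n) ^ 2 → ¬ l ^ 2 ∣ n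

/-- `t log t / log log t` -/
noncomputable def g (t : ℝ) : ℝ := t * Real.log t / Real.log (Real.log t)

/-- `s / log s` increases -/
lemma div_log_mono {s t : ℝ} (hs : Real.exp 1 ≤ s) (hst : s ≤ t) : s / Real.log s ≤ t / Real.log t := by
  have h1 := Real.log_div_self_antitoneOn (show s ∈ {x : ℝ | Real.exp 1 ≤ x} from hs)
    (show t ∈ {x : ℝ | Real.exp 1 ≤ x} from hs.trans hst) hst
  have he : 2 < Real.exp 1 := by
    have := Real.exp_one_gt_d9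
    linarith
  have hs0 : 0 < s := by linarith
  have ht0 : 0 < t := by linarith
  have hls : 0 < Real.log s := Real.log_pos (by linarith)
  have hlt : 0 < Real.log t := Real.log_pos (by linarith)
  simp only at h1
  rw [div_le_div_iff₀ ht0 hs0] at h1
  rw [div_le_div_iff₀ hls hlt]
  linarith

lemma g_mono : ∃ t0 : ℝ, ∀ s t : ℝ, t0 ≤ s → s ≤ t → g s ≤ g t := by
  refine ⟨Real.exp (Real.exp 1), fun s t hs hst => ?_⟩
  have he : 2 < Real.exp 1 := by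
    have := Real.exp_one_gt_d9
    linarith
  have h0 : 0 < Real.exp (Real.exp 1) := Real.exp_pos _
  have hs0 : 0 < s := by linarith
  have h1 : Real.exp 1 ≤ Real.log s := by rwa [Real.le_log_iff_exp_le hs0]
  have h2 : Real.log s ≤ Real.log t := Real.log_le_log hs0 hst
  have h3 := div_log_mono h1 h2
  unfold g
  rw [mul_div_assoc, mul_div_assoc]
  have h4 : 0 ≤ Real.log s / Real.log (Real.log s) := by
    apply div_nonneg (by linarith)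
    exact Real.log_nonneg (by linarith)
  exact mul_le_mul hst h3 h4 (by linarith)

/-- `log log` of the values -/
lemma loglog_le : ∀ᶠ n : ℕ in atTop, ∀ v ∈ quad3 n, n ≤ val3 v →
    Real.log (Real.log n) ≤ Real.log (Real.log (val3 v)) ∧ Real.log (Real.log (val3 v)) ≤ Real.log n := by
  filter_upwards [eventually_ge_atTop 16] with n hn v hv hnv
  have hn16 : (16 : ℝ) ≤ n := by exact_mod_cast hn
  have hn0 : (0 : ℝ) < n := by linarith
  obtain ⟨h1, h2⟩ := log_val3 (by omega) hv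
  have hl1 : 1 ≤ Real.log (n : ℝ) := by
    rw [Real.le_log_iff_exp_le hn0]
    have := Real.exp_one_lt_d9
    linarith
  constructor
  · apply Real.log_le_log (by linarith)
    exact Real.log_le_log hn0 (by exact_mod_cast hnv)
  · refine (Real.log_le_log (by linarith) h2).trans ?_
    rw [Real.log_mul (by norm_num) (Real.rpow_pos_of_pos hn0 _).ne', Real.log_rpow hn0]
    have h5 : Real.log 16 ≤ Real.log n := Real.log_le_log (by norm_num) hn16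
    have h6 : Real.log 16 = 2 * Real.log 4 := by
      rw [show (16 : ℝ) = 4 ^ 2 by norm_num, Real.log_pow]
      norm_num
    linarith

/-- the small values do not matter -/
lemma drop_small (ε : ℝ) (hε : 0 < ε) (hε1 : ε ≤ 1 / 2) : ∀ᶠ n : ℕ in atTop, ∀ S ⊆ quad3 n, (n : ℝ) ^ (1 - ε / 2) ≤ (S.card : ℝ) →
    (n : ℝ) ^ (1 - ε) ≤ ((S.filter (fun v => ¬ val3 v < n)).card : ℝ) := by
  have e2 : ∀ᶠ n : ℕ in atTop, 2 ≤ (n : ℝ) ^ (ε / 2) :=
    ((tendsto_rpow_atTop (by positivity)).comp tendsto_natCast_atTop_atTop).eventually_ge_atTop _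
  have e3 := (isLittleO_log_rpow_rpow_atTop (3 : ℝ) (show (0 : ℝ) < 1 / 2 by norm_num)).bound
    (show (0 : ℝ) < 1 / 27 by norm_num)
  filter_upwards [e2, tendsto_natCast_atTop_atTop.eventually e3, log_cube, eventually_ge_atTop 1]
    with n h2 h3 h4 h5 S hS hc
  have hn1 : (1 : ℝ) ≤ n := by exact_mod_cast h5
  have hn0 : (0 : ℝ) < n := by linarith
  have hl : 0 ≤ Real.log (n : ℝ) := Real.log_nonneg hn1
  rw [Real.norm_eq_abs, Real.norm_eq_abs, abs_of_nonneg (Real.rpow_nonneg hl _),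
    abs_of_nonneg (Real.rpow_nonneg hn0.le _)] at h3
  have e5 : Real.log n ^ (3 : ℝ) = Real.log n ^ (3 : ℕ) := by
    rw [← Real.rpow_natCast]; norm_num
  rw [e5] at h3
  have h6 : ((S.filter (fun v => val3 v < n)).card : ℝ) ≤ (n : ℝ) ^ (1 / 2 : ℝ) := by
    have h7 : ((S.filter (fun v => val3 v < n)).card : ℝ) ≤ 27 * Real.log n ^ 3 := by
      refine le_trans ?_ h4.1
      exact_mod_cast (Finset.card_le_card (Finset.filter_subset_filter _ hS)).trans (small3 n)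
    linarith
  have h8 : (S.card : ℝ) = ((S.filter (fun v => val3 v < n)).card : ℝ) +
      ((S.filter (fun v => ¬ val3 v < n)).card : ℝ) := by
    exact_mod_cast (Finset.card_filter_add_card_filter_not (s := S) (fun v => val3 v < n)).symm
  have h9 : (n : ℝ) ^ (1 / 2 : ℝ) ≤ (n : ℝ) ^ (1 - ε) :=
    Real.rpow_le_rpow_of_exponent_le hn1 (by linarith)
  have h10 : 2 * (n : ℝ) ^ (1 - ε) ≤ (n : ℝ) ^ (1 - ε / 2) := by
    calc 2 * (n : ℝ) ^ (1 - ε) ≤ (n : ℝ) ^ (ε / 2) * (n : ℝ) ^ (1 - ε) := by gcongr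
      _ = _ := by
        rw [← Real.rpow_add hn0]
        congr 1
        ring
  linarith

/-- many rough quadruples, all odd regular `n` -/
lemma many3A (ε : ℝ) (hε : 0 < ε) (hε1 : ε ≤ 1 / 2) : ∃ c₀ : ℝ, 0 < c₀ ∧ ∀ (c : ℝ), 0 < c → c ≤ c₀ →
    ∀ (P : Set ℕ) (z : ℕ → ℕ),
    (∀ᶠ n : ℕ in atTop, (z n : ℝ) ≤ c * g (Real.log (Real.log n))) →
    ∀ᶠ n : ℕ in atTop, Regular P (c * g (Real.log n)) n →
      ∃ T ⊆ quad3 n, (n : ℝ) ^ (1 - ε) ≤ (T.card : ℝ) ∧ ∀ v ∈ T, n ≤ val3 v ∧ Rough P z (val3 v) := by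
  obtain ⟨c₀, hc₀, n0, hT⟩ := Pool.Agent.N719.SP.mainAU (ε / 2) (by positivity)
  refine ⟨c₀, hc₀, fun c hc hcc P z hz => ?_⟩
  obtain ⟨m1, hm1⟩ := eventually_atTop.1 hz
  obtain ⟨t0, ht0⟩ := g_mono
  have hll : ∀ᶠ n : ℕ in atTop, t0 ≤ Real.log (Real.log (n : ℝ)) :=
    (Real.tendsto_log_atTop.comp Pool.Agent.N233.GM.logN).eventually_ge_atTop t0
  filter_upwards [eventually_ge_atTop n0, eventually_ge_atTop m1, drop_small ε hε hε1, loglog_le, hll]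
    with n h1 h2 h3 h4 h5 hreg
  obtain ⟨S, hS1, hS2⟩ := hT n h1 hreg.1
  have hsub : S ⊆ quad3 n := by
    rintro ⟨x, y, z, w⟩ hX
    exact mem_quad3.2 (hS2 x y z w hX).1
  refine ⟨S.filter (fun v => ¬ val3 v < n), (Finset.filter_subset _ _).trans hsub, h3 S hsub hS1, ?_⟩
  rintro ⟨x, y, a, b⟩ hX
  obtain ⟨hX1, hX2⟩ := Finset.mem_filter.1 hX
  have hX3 := not_lt.1 hX2
  refine ⟨hX3, fun q hqP hq hqz hqd => ?_⟩
  obtain ⟨g1, g2⟩ := h4 _ (hsub hX1) hX3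
  have g5 := hm1 (val3 (x, y, a, b)) (h2.trans hX3)
  have g6 := ht0 _ _ (h5.trans g1) g2
  have g9 : (q : ℝ) ≤ z (val3 (x, y, a, b)) := by exact_mod_cast hqz
  have g10 : (q : ℝ) ≤ c * g (Real.log n) :=
    g9.trans (g5.trans (mul_le_mul_of_nonneg_left g6 hc.le))
  have g0 : 0 ≤ g (Real.log n) := by
    by_contra hneg
    push Not at hneg
    have k1 : (0 : ℝ) ≤ q := Nat.cast_nonneg q
    have k2 : c * g (Real.log n) < 0 := mul_neg_of_pos_of_neg hc hneg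
    linarith
  obtain ⟨g11, g12⟩ := (hS2 x y a b hX1).2 q hq hqd (g10.trans (mul_le_mul_of_nonneg_right hcc g0))
  exact hreg.2 q hqP hq g11 g10 (Pool.Agent.N719.SP.exc_finalU n q g12)

/-- many rough quadruples, range `(log n)²` -/
lemma many3B (ε : ℝ) (hε : 0 < ε) (hε1 : ε ≤ 1 / 2) : ∃ c₀ : ℝ, 0 < c₀ ∧ ∀ (c : ℝ), 0 < c → c ≤ c₀ →
    ∀ (P : Set ℕ) (z : ℕ → ℕ),
    (∀ᶠ n : ℕ in atTop, (z n : ℝ) ≤ c * Real.log (Real.log n) ^ 2) →
    ∀ᶠ n : ℕ in atTop, Regular P (c * Real.log n ^ 2) n → NoSquare c n →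
      ∃ T ⊆ quad3 n, (n : ℝ) ^ (1 - ε) ≤ (T.card : ℝ) ∧ ∀ v ∈ T, n ≤ val3 v ∧ Rough P z (val3 v) := by
  obtain ⟨c₀, hc₀, n0, hT⟩ := Pool.Agent.N719.SP.mainBU (ε / 2) (by positivity)
  refine ⟨c₀, hc₀, fun c hc hcc P z hz => ?_⟩
  obtain ⟨m1, hm1⟩ := eventually_atTop.1 hz
  have hll : ∀ᶠ n : ℕ in atTop, 0 ≤ Real.log (Real.log (n : ℝ)) :=
    (Real.tendsto_log_atTop.comp Pool.Agent.N233.GM.logN).eventually_ge_atTop 0
  filter_upwards [eventually_ge_atTop n0, eventually_ge_atTop m1, drop_small ε hε hε1, loglog_le, hll]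
    with n h1 h2 h3 h4 h5 hreg hno
  have hln : 0 ≤ Real.log (n : ℝ) := Real.log_natCast_nonneg n
  obtain ⟨S, hS1, hS2⟩ := hT n h1 hreg.1 (fun l hl1 hl2 hl3 =>
    hno l hl1 (lt_of_le_of_lt (mul_le_mul_of_nonneg_right hcc hln) hl2) hl3)
  have hsub : S ⊆ quad3 n := by
    rintro ⟨x, y, z, w⟩ hX
    exact mem_quad3.2 (hS2 x y z w hX).1
  refine ⟨S.filter (fun v => ¬ val3 v < n), (Finset.filter_subset _ _).trans hsub, h3 S hsub hS1, ?_⟩
  rintro ⟨x, y, a, b⟩ hX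
  obtain ⟨hX1, hX2⟩ := Finset.mem_filter.1 hX
  have hX3 := not_lt.1 hX2
  refine ⟨hX3, fun q hqP hq hqz hqd => ?_⟩
  obtain ⟨g1, g2⟩ := h4 _ (hsub hX1) hX3
  have g5 := hm1 (val3 (x, y, a, b)) (h2.trans hX3)
  have g6 : Real.log (Real.log (val3 (x, y, a, b) : ℝ)) ^ 2 ≤ Real.log n ^ 2 :=
    pow_le_pow_left₀ (h5.trans g1) g2 2
  have g9 : (q : ℝ) ≤ z (val3 (x, y, a, b)) := by exact_mod_cast hqz
  have g10 : (q : ℝ) ≤ c * Real.log n ^ 2 :=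
    g9.trans (g5.trans (mul_le_mul_of_nonneg_left g6 hc.le))
  obtain ⟨g11, g12⟩ := (hS2 x y a b hX1).2 q hq hqd
    (g10.trans (mul_le_mul_of_nonneg_right hcc (sq_nonneg _)))
  exact hreg.2 q hqP hq g11 g10 (Pool.Agent.N719.SP.exc_finalU n q g12)

/-- from many rough quadruples to the expected number -/
lemma low3 (ε : ℝ) (hε : 0 < ε) : ∀ᶠ n : ℕ in atTop, ∀ (P : Set ℕ) (z : ℕ → ℕ),
    (∃ T ⊆ quad3 n, (n : ℝ) ^ (1 - ε / 2) ≤ (T.card : ℝ) ∧ ∀ v ∈ T, n ≤ val3 v ∧ Rough P z (val3 v)) →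
    2 * (n : ℝ) ^ (1 / 2 - ε) ≤ ∑ v ∈ quad3 n, rho P z (val3 v) := by
  classical
  have e2 : ∀ᶠ n : ℕ in atTop, 8 ≤ (n : ℝ) ^ (ε / 2) :=
    ((tendsto_rpow_atTop (by positivity)).comp tendsto_natCast_atTop_atTop).eventually_ge_atTop _
  filter_upwards [e2, eventually_ge_atTop 1] with n h2 h5 P z h1
  obtain ⟨S, hsub, hS1, hS2⟩ := h1
  have hn1 : (1 : ℝ) ≤ n := by exact_mod_cast h5
  have hn0 : (0 : ℝ) < n := by linarith
  have hnh : 1 ≤ (n : ℝ) ^ (1 / 2 : ℝ) := Real.one_le_rpow hn1 (by norm_num)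
  have h6 : ∀ v ∈ S, 1 / (4 * (n : ℝ) ^ (1 / 2 : ℝ)) ≤ rho P z (val3 v) := by
    intro v hv
    obtain ⟨g1, g2⟩ := log_val3 h5 (hsub hv)
    unfold rho
    rw [if_pos (hS2 v hv).2]
    have := W_ge P (z (val3 v))
    have g3 : 0 < Real.log (val3 v : ℝ) := by linarith
    gcongr
  have hnn : ∀ v, 0 ≤ rho P z (val3 v) := by
    intro v
    unfold rho
    split_ifs
    · exact div_nonneg (zero_le_one.trans (W_ge _ _)) (Real.log_natCast_nonneg _)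
    · exact le_rfl
  calc 2 * (n : ℝ) ^ (1 / 2 - ε) = 8 * ((n : ℝ) ^ (1 / 2 - ε) / 4) := by ring
    _ ≤ (n : ℝ) ^ (ε / 2) * ((n : ℝ) ^ (1 / 2 - ε) / 4) := by gcongr
    _ = (n : ℝ) ^ (1 - ε / 2) * (1 / (4 * (n : ℝ) ^ (1 / 2 : ℝ))) := by
        have e1 : (n : ℝ) ^ (1 - ε / 2) = (n : ℝ) ^ (ε / 2) * (n : ℝ) ^ (1 / 2 - ε) * (n : ℝ) ^ (1 / 2 : ℝ) := by
          rw [← Real.rpow_add hn0, ← Real.rpow_add hn0]
          congr 1
          ring
        rw [e1]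
        field_simp
    _ ≤ S.card * (1 / (4 * (n : ℝ) ^ (1 / 2 : ℝ))) := by gcongr
    _ = ∑ _v ∈ S, 1 / (4 * (n : ℝ) ^ (1 / 2 : ℝ)) := by rw [Finset.sum_const, nsmul_eq_mul]
    _ ≤ ∑ v ∈ S, rho P z (val3 v) := Finset.sum_le_sum h6
    _ ≤ _ := Finset.sum_le_sum_of_subset_of_nonneg hsub fun v _ _ => hnn v

end Pool.Agent.J6H13.GS
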