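import Mathlib
import Pool.Agent.J6H13.GS.Low3

/-! # Many regular numbers -/

set_option autoImplicit false
set_option linter.unusedSectionVars false

namespace Pool.Agent.J6H13.GS

open Filter

/-- the numbers coprime to `D` in an interval of length `K D` -/
lemma count_coprime (D u K : ℕ) :
    ((Finset.Ico u (u + K * D)).filter (fun m => D.Coprime m)).card = K * D.totient := by
  induction K with
  | zero => simp
  | succ K ih =>
    have e1 : Finset.Ico u (u + (K + 1) * D) = Finset.Ico u (u + K * D) ∪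
        Finset.Ico (u + K * D) (u + K * D + D) := by
      rw [Finset.Ico_union_Ico_eq_Ico (by omega) (by omega)]
      congr 1
      ring
    have e2 : Disjoint ((Finset.Ico u (u + K * D)).filter (fun m => D.Coprime m))
        ((Finset.Ico (u + K * D) (u + K * D + D)).filter (fun m => D.Coprime m)) :=
      (Finset.Ico_disjoint_Ico_consecutive _ _ _).mono (Finset.filter_subset _ _) (Finset.filter_subset _ _)
    rw [e1, Finset.filter_union, Finset.card_union_of_disjoint e2, ih,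
      Nat.filter_coprime_Ico_eq_totient D (u + K * D)]
    ring

/-- the product of the primes from `5` to `y` -/
def DD (y : ℕ) : ℕ := ∏ l ∈ (Finset.Icc 5 y).filter Nat.Prime, l

lemma DD_pos (y : ℕ) : 0 < DD y :=
  Finset.prod_pos fun l hl => (Finset.mem_filter.1 hl).2.pos

lemma DD_le (y : ℕ) : DD y ≤ 4 ^ y := by
  refine le_trans ?_ (primorial_le_four_pow y)
  unfold DD primorial
  apply Finset.prod_le_prod_of_subset_of_one_le'
  · intro l hl
    obtain ⟨h1, h2⟩ := Finset.mem_filter.1 hl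
    rw [Finset.mem_Icc] at h1
    exact Finset.mem_filter.2 ⟨Finset.mem_range.2 (by omega), h2⟩
  · intro l hl _
    exact (Finset.mem_filter.1 hl).2.pos

lemma DD_dvd {y l : ℕ} (hl : l.Prime) (h5 : 5 ≤ l) (hy : l ≤ y) : l ∣ DD y :=
  Finset.dvd_prod_of_mem _ (Finset.mem_filter.2 ⟨Finset.mem_Icc.2 ⟨h5, hy⟩, hl⟩)

lemma DD_cop (y : ℕ) : Nat.Coprime 36 (DD y) := by
  unfold DD
  apply Nat.Coprime.prod_right
  intro l hl
  obtain ⟨h1, h2⟩ := Finset.mem_filter.1 hl
  rw [Finset.mem_Icc] at h1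
  rw [Nat.coprime_comm, Nat.Prime.coprime_iff_not_dvd h2]
  intro h3
  have h4 : l ∣ 2 ^ 2 * 3 ^ 2 := by norm_num; exact h3
  rcases (Nat.Prime.dvd_mul h2).1 h4 with h | h
  · have := (Nat.prime_dvd_prime_iff_eq h2 Nat.prime_two).1 (h2.dvd_of_dvd_pow h)
    omega
  · have := (Nat.prime_dvd_prime_iff_eq h2 Nat.prime_three).1 (h2.dvd_of_dvd_pow h)
    omega

/-- the density of the numbers coprime to `DD y` -/
lemma DD_phi (y : ℕ) : (DD y : ℝ) / Pool.Agent.N233.GM.W y ≤ (DD y).totient := by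
  have hW := Pool.Agent.N233.GM.W_ge y
  rw [div_le_iff₀ (by linarith)]
  have h1 : ((DD y).totient : ℝ) = (DD y : ℝ) * ∏ l ∈ (DD y).primeFactors, (1 - (l : ℝ)⁻¹) := by
    have := Nat.totient_eq_mul_prod_factors (DD y)
    have h2 : (((DD y).totient : ℚ) : ℝ) = (((DD y : ℚ) * ∏ p ∈ (DD y).primeFactors, (1 - (p : ℚ)⁻¹) : ℚ) : ℝ) := by
      rw [this]
    push_cast at h2
    exact h2
  have h3 : (DD y).primeFactors ⊆ (Finset.Icc 1 y).filter Nat.Prime := by
    intro p hp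
    have hpp := Nat.prime_of_mem_primeFactors hp
    have hpd := Nat.dvd_of_mem_primeFactors hp
    unfold DD at hpd
    rw [Prime.dvd_finsetProd_iff hpp.prime] at hpd
    obtain ⟨l, hl, hpl⟩ := hpd
    obtain ⟨h4, h5⟩ := Finset.mem_filter.1 hl
    rw [(Nat.prime_dvd_prime_iff_eq hpp h5).1 hpl]
    rw [Finset.mem_Icc] at h4
    exact Finset.mem_filter.2 ⟨Finset.mem_Icc.2 ⟨by omega, h4.2⟩, h5⟩
  have hfac : ∀ l ∈ (Finset.Icc 1 y).filter Nat.Prime, (0 : ℝ) < 1 - (l : ℝ)⁻¹ ∧ (1 : ℝ) - (l : ℝ)⁻¹ ≤ 1 := by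
    intro l hl
    have hl2 : (1 : ℝ) < l := by exact_mod_cast (Finset.mem_filter.1 hl).2.one_lt
    have h6 : (l : ℝ)⁻¹ < 1 := inv_lt_one_of_one_lt₀ hl2
    have h7 : (0 : ℝ) < (l : ℝ)⁻¹ := by positivity
    constructor <;> linarith
  have h4 : ∏ l ∈ (Finset.Icc 1 y).filter Nat.Prime, (1 - (l : ℝ)⁻¹) ≤
      ∏ l ∈ (DD y).primeFactors, (1 - (l : ℝ)⁻¹) := by
    rw [← Finset.prod_sdiff h3]
    have h5 : ∏ l ∈ (Finset.Icc 1 y).filter Nat.Prime \ (DD y).primeFactors, (1 - (l : ℝ)⁻¹) ≤ 1 :=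
      Finset.prod_le_one (fun l hl => (hfac l (Finset.mem_sdiff.1 hl).1).1.le)
        (fun l hl => (hfac l (Finset.mem_sdiff.1 hl).1).2)
    have h6 : 0 ≤ ∏ l ∈ (DD y).primeFactors, (1 - (l : ℝ)⁻¹) :=
      Finset.prod_nonneg fun l hl => (hfac l (h3 hl)).1.le
    nlinarith
  have h5 : Pool.Agent.N233.GM.W y * ∏ l ∈ (Finset.Icc 1 y).filter Nat.Prime, (1 - (l : ℝ)⁻¹) = 1 := by
    unfold Pool.Agent.N233.GM.W
    rw [← Finset.prod_mul_distrib]
    refine Finset.prod_eq_one fun l hl => ?_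
    exact inv_mul_cancel₀ (hfac l hl).1.ne'
  rw [h1]
  have h6 : (0 : ℝ) ≤ DD y := Nat.cast_nonneg _
  calc (DD y : ℝ) = (DD y : ℝ) * (Pool.Agent.N233.GM.W y * ∏ l ∈ (Finset.Icc 1 y).filter Nat.Prime, (1 - (l : ℝ)⁻¹)) := by
        rw [h5, mul_one]
    _ ≤ (DD y : ℝ) * (Pool.Agent.N233.GM.W y * ∏ l ∈ (DD y).primeFactors, (1 - (l : ℝ)⁻¹)) := by
        apply mul_le_mul_of_nonneg_left _ h6
        apply mul_le_mul_of_nonneg_left h4 (by linarith)
    _ = _ := by ring

/-- the numbers `m` with `36m+1` coprime to `D` -/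
lemma count_m' (D K : ℕ) (hD0 : 0 < D) (hcop : Nat.Coprime 36 D) :
    K * D.totient ≤ ((Finset.range (K * D)).filter (fun m => D.Coprime (36 * m + 1))).card := by
  obtain ⟨u, hu⟩ : ∃ u : ℕ, 36 * u ≡ 1 [MOD D] := by
    rcases Nat.lt_or_ge 1 D with h1 | h1
    · obtain ⟨u, -, hu⟩ := Nat.exists_mul_mod_eq_one_of_coprime hcop h1
      refine ⟨u, ?_⟩
      unfold Nat.ModEq
      rw [hu, Nat.mod_eq_of_lt h1]
    · have h2 : D = 1 := by omega
      refine ⟨0, ?_⟩
      rw [h2]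
      exact Nat.modEq_one
  rw [← count_coprime D u K]
  apply Finset.card_le_card_of_injOn (fun j => j - u)
  · intro j hj
    rw [Finset.mem_coe, Finset.mem_filter, Finset.mem_Ico] at hj
    obtain ⟨⟨h1, h2⟩, h3⟩ := hj
    rw [Finset.mem_coe, Finset.mem_filter, Finset.mem_range]
    refine ⟨?_, ?_⟩
    · change j - u < K * D
      omega
    have h4 : 36 * (j - u) + 1 ≡ 36 * j [MOD D] := by
      have h5 : 36 * j = 36 * (j - u) + 36 * u := by rw [← Nat.mul_add]; congr 1; omega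
      rw [h5]
      exact Nat.ModEq.add_left _ hu.symm
    have h6 : Nat.gcd (36 * (j - u) + 1) D = Nat.gcd (36 * j) D := h4.gcd_eq
    rw [Nat.coprime_comm]
    unfold Nat.Coprime
    rw [h6]
    exact Nat.Coprime.mul_left hcop h3.symm
  · intro a ha b hb hab
    rw [Finset.mem_coe, Finset.mem_filter, Finset.mem_Ico] at ha hb
    simp only at hab
    omega

lemma count_m (y K : ℕ) :
    K * (DD y).totient ≤ ((Finset.range (K * DD y)).filter (fun m => (DD y).Coprime (36 * m + 1))).card :=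
  count_m' _ K (DD_pos y) (DD_cop y)

/-- sufficient for regularity -/
lemma regular_of {c : ℝ} (hc : 0 < c) (hc1 : c ≤ 1 / 64) {X m y : ℕ} (hy : Real.log X / 8 < y + 1) (hy7 : 7 ≤ y)
    (hX : 4 * m + 1 ≤ X) (hcop : (DD y).Coprime (36 * m + 1)) :
    Regular Set.univ (c * Real.log ((4 * m + 1 : ℕ) : ℝ) ^ 2) (4 * m + 1) := by
  have hbad : ∀ l : ℕ, l.Prime → 5 ≤ l → l ≤ y → ¬ l ∣ 36 * m + 1 := by
    intro l hl h5 hly hd
    have h1 := Nat.dvd_gcd (DD_dvd hl h5 hly) hd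
    rw [hcop] at h1
    exact hl.one_lt.ne' (Nat.dvd_one.1 h1)
  refine ⟨⟨2 * m, by ring⟩, ?_⟩
  intro q _ hq hq2 hqy hex
  rcases hex with ⟨l, hl, hl5, hlo, ⟨h1, h2, h3⟩ | ⟨h1, h2, h3⟩⟩ | ⟨h1, h2, h3⟩ | ⟨h1, h2, h3⟩
  · apply hbad l hl hl5
    · -- `l ≤ y`
      have : Fact q.Prime := ⟨hq⟩
      have h20 : (2 : ZMod q) ≠ 0 := by
        intro h0
        have h4 : ((2 : ℕ) : ZMod q) = 0 := by exact_mod_cast h0
        rw [ZMod.natCast_eq_zero_iff] at h4
        exact hq2 ((Nat.prime_dvd_prime_iff_eq hq Nat.prime_two).1 h4)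
      have h4 := hlo.trans (ZMod.orderOf_dvd_card_sub_one h20)
      have h5 := Nat.le_of_dvd (by have := hq.two_le; omega) h4
      have h6 : l ^ 2 ≤ q := by omega
      have h7 : (l : ℝ) ^ 2 ≤ q := by exact_mod_cast h6
      have h8 : Real.log ((4 * m + 1 : ℕ) : ℝ) ≤ Real.log X :=
        Real.log_le_log (by positivity) (by exact_mod_cast hX)
      have h9 : 0 ≤ Real.log ((4 * m + 1 : ℕ) : ℝ) := Real.log_natCast_nonneg _
      have h10 : (l : ℝ) ^ 2 ≤ (Real.log X / 8) ^ 2 := by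
        calc (l : ℝ) ^ 2 ≤ c * Real.log ((4 * m + 1 : ℕ) : ℝ) ^ 2 := h7.trans hqy
          _ ≤ 1 / 64 * Real.log X ^ 2 := by gcongr
          _ = _ := by ring
      have h11 : (l : ℝ) ≤ Real.log X / 8 := by
        apply le_of_sq_le_sq h10
        linarith
      have h12 : (l : ℝ) < y + 1 := by linarith
      have h13 : l < y + 1 := by exact_mod_cast h12
      omega
    · have h4 : ((l : ℕ) : ℤ) ∣ ((36 * m + 1 : ℕ) : ℤ) := by
        have e : ((36 * m + 1 : ℕ) : ℤ) = 9 * ((4 * m + 1 : ℕ) : ℤ) - 8 := by push_cast; ring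
        rw [e]
        exact h3
      exact_mod_cast h4
  · omega
  · apply hbad 7 (by norm_num) (by norm_num) hy7
    omega
  · omega

open Classical in
/-- numbers with a large square factor -/
lemma square_count {c : ℝ} (hc : 0 < c) {X : ℕ} (hX : 2 ≤ c / 2 * Real.log X) :
    (((Finset.Icc 1 X).filter (fun n => Nat.sqrt X < n ∧ ¬ NoSquare c n)).card : ℝ) ≤
      4 / c * (X / Real.log X) := by
  classical
  set L : ℕ := ⌊c / 2 * Real.log X⌋₊ with hL
  have hL2 : 2 ≤ L := Nat.le_floor (by exact_mod_cast hX)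
  have hLr : c / 2 * Real.log X < L + 1 := Nat.lt_floor_add_one _
  have hlog0 : 0 < Real.log (X : ℝ) := by
    by_contra h
    push Not at h
    have : c / 2 * Real.log X ≤ 0 := mul_nonpos_of_nonneg_of_nonpos (by positivity) h
    linarith
  have hX0 : 0 < X := by
    rcases Nat.eq_zero_or_pos X with h | h
    · rw [h] at hlog0; simp at hlog0
    · exact h
  have hsub : (Finset.Icc 1 X).filter (fun n => Nat.sqrt X < n ∧ ¬ NoSquare c n) ⊆
      (Finset.Ioc L (L + X)).biUnion (fun l => (Finset.Icc 1 X).filter (fun n => l ^ 2 ∣ n)) := by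
    intro n hn
    obtain ⟨h1, h2, h3⟩ := Finset.mem_filter.1 hn
    unfold NoSquare at h3
    push Not at h3
    obtain ⟨l, hl, hl1, hl2, hl3⟩ := h3
    rw [Finset.mem_biUnion]
    have hn1 := (Finset.mem_Icc.1 h1).1
    have hn2 := (Finset.mem_Icc.1 h1).2
    refine ⟨l, ?_, Finset.mem_filter.2 ⟨h1, hl3⟩⟩
    have h4 : Real.log X ≤ 2 * Real.log n := by
      have h5 : X ≤ n ^ 2 := by
        have := Nat.lt_succ_sqrt' X
        calc X ≤ (Nat.sqrt X).succ ^ 2 := this.le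
          _ ≤ n ^ 2 := Nat.pow_le_pow_left h2 2
      have h6 : Real.log X ≤ Real.log ((n : ℝ) ^ 2) := Real.log_le_log (by exact_mod_cast hX0) (by exact_mod_cast h5)
      rw [Real.log_pow] at h6
      exact_mod_cast h6
    have h5 : (L : ℝ) ≤ c / 2 * Real.log X := Nat.floor_le (by positivity)
    have h6 : (L : ℝ) < l := by
      have : c / 2 * Real.log X ≤ c * Real.log n := by
        calc c / 2 * Real.log X ≤ c / 2 * (2 * Real.log n) := by gcongr
          _ = _ := by ring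
      linarith
    have h7 : L < l := by exact_mod_cast h6
    have h8 : l ≤ l ^ 2 := Nat.le_self_pow (by norm_num) l
    have h9 := Nat.le_of_dvd (by omega) hl3
    exact Finset.mem_Ioc.2 ⟨h7, by omega⟩
  have h1 : (((Finset.Icc 1 X).filter (fun n => Nat.sqrt X < n ∧ ¬ NoSquare c n)).card : ℝ) ≤
      ∑ l ∈ Finset.Ioc L (L + X), (X : ℝ) * ((l : ℝ) ^ 2)⁻¹ := by
    have h2 : ((Finset.Icc 1 X).filter (fun n => Nat.sqrt X < n ∧ ¬ NoSquare c n)).card ≤
        ∑ l ∈ Finset.Ioc L (L + X), ((Finset.Icc 1 X).filter (fun n => l ^ 2 ∣ n)).card :=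
      (Finset.card_le_card hsub).trans Finset.card_biUnion_le
    calc (((Finset.Icc 1 X).filter (fun n => Nat.sqrt X < n ∧ ¬ NoSquare c n)).card : ℝ)
        ≤ ((∑ l ∈ Finset.Ioc L (L + X), ((Finset.Icc 1 X).filter (fun n => l ^ 2 ∣ n)).card : ℕ) : ℝ) := by
          exact_mod_cast h2
      _ = ∑ l ∈ Finset.Ioc L (L + X), (((Finset.Icc 1 X).filter (fun n => l ^ 2 ∣ n)).card : ℝ) := by push_cast; rfl
      _ ≤ _ := by
        refine Finset.sum_le_sum fun l hl => ?_
        have h3 : ((Finset.Icc 1 X).filter (fun n => l ^ 2 ∣ n)).card = X / l ^ 2 := by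
          rw [← Nat.Ioc_filter_dvd_card_eq_div X (l ^ 2)]
          rfl
        rw [h3]
        refine Nat.cast_div_le.trans (le_of_eq ?_)
        push_cast
        rw [div_eq_mul_inv]
  have h2 : ∑ l ∈ Finset.Ioc L (L + X), (X : ℝ) * ((l : ℝ) ^ 2)⁻¹ ≤ X * (L : ℝ)⁻¹ := by
    rw [← Finset.mul_sum]
    apply mul_le_mul_of_nonneg_left _ (Nat.cast_nonneg X)
    have h3 := sum_Ioc_inv_sq_le_sub (α := ℝ) (k := L) (n := L + X) (by omega) (by omega)
    have h4 : (0 : ℝ) ≤ ((L + X : ℕ) : ℝ)⁻¹ := by positivity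
    linarith
  refine h1.trans (h2.trans ?_)
  have hL0 : (0 : ℝ) < L := by exact_mod_cast (by omega : 0 < L)
  have h5 : c / 4 * Real.log X ≤ L := by
    have h6 : (1 : ℝ) ≤ L := by exact_mod_cast (by omega : 1 ≤ L)
    linarith
  have h6 : (L : ℝ)⁻¹ ≤ (c / 4 * Real.log X)⁻¹ := by
    apply inv_anti₀ (by positivity) h5
  calc (X : ℝ) * (L : ℝ)⁻¹ ≤ X * (c / 4 * Real.log X)⁻¹ := by gcongr
    _ = 4 / c * (X / Real.log X) := by
      field_simp

/-- **many regular numbers** -/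
theorem many_regular : ∃ κ : ℝ, 0 < κ ∧ ∀ c : ℝ, 0 < c → c ≤ 1 / 64 → ∀ᶠ X : ℕ in atTop,
    κ * (X / Real.log (Real.log X)) ≤ ({n : ℕ | n ≤ X ∧
      Regular Set.univ (c * Real.log n ^ 2) n ∧ NoSquare c n}.ncard : ℝ) := by
  classical
  obtain ⟨C₁, C₂, hC₁, hC₂, hW⟩ := Pool.Agent.N233.GM.W_bound
  refine ⟨1 / (16 * (C₁ + C₂)), by positivity, fun c hc hc1 => ?_⟩
  have hlogN := Pool.Agent.N233.GM.logN
  have hll := Real.tendsto_log_atTop.comp hlogN
  -- `loglog X / log X` is small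
  have t1 : ∀ᶠ X : ℕ in atTop, Real.log (Real.log (X : ℝ)) ≤
      (1 / (16 * (C₁ + C₂)) / (2 * (4 / c))) * Real.log X := by
    have := (Real.isLittleO_log_id_atTop.comp_tendsto hlogN).bound
      (show (0 : ℝ) < 1 / (16 * (C₁ + C₂)) / (2 * (4 / c)) by positivity)
    filter_upwards [this, hlogN.eventually_ge_atTop 1] with X h1 h2
    simp only [Function.comp, id] at h1
    rw [Real.norm_eq_abs, Real.norm_eq_abs, abs_of_nonneg (by linarith : (0 : ℝ) ≤ Real.log (X : ℝ))] at h1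
    exact (le_abs_self _).trans h1
  have t2 : ∀ᶠ X : ℕ in atTop, Real.log (Real.log (X : ℝ)) * (X : ℝ) ^ (1 / 2 : ℝ) ≤
      (1 / (16 * (C₁ + C₂)) / 2) * X := by
    have := (isLittleO_log_rpow_atTop (show (0 : ℝ) < 1 / 2 by norm_num)).bound
      (show (0 : ℝ) < 1 / (16 * (C₁ + C₂)) / 2 by positivity)
    filter_upwards [tendsto_natCast_atTop_atTop.eventually this, hlogN.eventually_ge_atTop 1,
      eventually_ge_atTop 1] with X h1 h2 h3
    have hX0 : (0 : ℝ) < X := by exact_mod_cast h3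
    rw [Real.norm_eq_abs, Real.norm_eq_abs, abs_of_nonneg (by linarith : (0 : ℝ) ≤ Real.log (X : ℝ)),
      abs_of_nonneg (Real.rpow_nonneg hX0.le _)] at h1
    have h4 : Real.log (Real.log (X : ℝ)) ≤ Real.log X := by
      have := Real.log_le_sub_one_of_pos (show (0 : ℝ) < Real.log X by linarith)
      linarith
    have h5 : (X : ℝ) = (X : ℝ) ^ (1 / 2 : ℝ) * (X : ℝ) ^ (1 / 2 : ℝ) := by
      rw [← Real.rpow_add hX0]; norm_num
    calc Real.log (Real.log (X : ℝ)) * (X : ℝ) ^ (1 / 2 : ℝ)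
        ≤ (1 / (16 * (C₁ + C₂)) / 2 * (X : ℝ) ^ (1 / 2 : ℝ)) * (X : ℝ) ^ (1 / 2 : ℝ) := by
          gcongr
          exact h4.trans h1
      _ = (1 / (16 * (C₁ + C₂)) / 2) * X := by
          rw [mul_assoc, ← h5]
  have t3 : ∀ᶠ X : ℕ in atTop, 8 ≤ (X : ℝ) ^ (1 / 2 : ℝ) :=
    ((tendsto_rpow_atTop (by positivity)).comp tendsto_natCast_atTop_atTop).eventually_ge_atTop _
  filter_upwards [t1, t2, t3, hlogN.eventually_ge_atTop (4 / c), hlogN.eventually_ge_atTop 64,
    hll.eventually_ge_atTop 1, eventually_ge_atTop 1] with X h1 h2 h3 h4 h5 h6 h7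
  simp only [Function.comp] at h6
  set y : ℕ := ⌊Real.log X / 8⌋₊ with hy
  have hX0 : (0 : ℝ) < X := by exact_mod_cast h7
  have hlX : 0 < Real.log (X : ℝ) := by linarith
  have hy1 : Real.log X / 8 < y + 1 := Nat.lt_floor_add_one _
  have hy2 : (y : ℝ) ≤ Real.log X / 8 := Nat.floor_le (by positivity)
  have hy7 : 7 ≤ y := Nat.le_floor (by push_cast; linarith)
  set D := DD y with hD
  have hD0 : 0 < D := DD_pos y
  -- the size of `D`
  have hDX : (D : ℝ) * 8 ≤ X := by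
    have g1 : (D : ℝ) ≤ 4 ^ y := by exact_mod_cast DD_le y
    have g2 : (4 : ℝ) ^ y ≤ (X : ℝ) ^ (1 / 2 : ℝ) := by
      rw [← Real.rpow_natCast, ← Real.exp_log (show (0 : ℝ) < 4 by norm_num), ← Real.exp_mul,
        Real.rpow_def_of_pos hX0]
      apply Real.exp_le_exp.2
      have g3 : Real.log 4 ≤ 2 := by
        have : Real.log 4 = 2 * Real.log 2 := by
          rw [show (4 : ℝ) = 2 ^ 2 by norm_num, Real.log_pow]; norm_num
        have := Real.log_two_lt_d9
        linarith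
      have g4 : (0 : ℝ) ≤ y := Nat.cast_nonneg y
      nlinarith
    calc (D : ℝ) * 8 ≤ (X : ℝ) ^ (1 / 2 : ℝ) * (X : ℝ) ^ (1 / 2 : ℝ) :=
          mul_le_mul (g1.trans g2) h3 (by norm_num) (by positivity)
      _ = X := by rw [← Real.rpow_add hX0]; norm_num
  set K : ℕ := X / (4 * D) with hK
  have hKD : 4 * (K * D) ≤ X := by
    have := Nat.div_mul_le_self X (4 * D)
    calc 4 * (K * D) = X / (4 * D) * (4 * D) := by rw [hK]; ring
      _ ≤ X := this
  have hKr : (X : ℝ) / (8 * D) ≤ K := by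
    have g1 : (X : ℝ) < (K + 1) * (4 * D) := by
      have := Nat.lt_div_mul_add (a := X) (b := 4 * D) (by positivity)
      have g2 : X < (K + 1) * (4 * D) := by rw [hK]; nlinarith
      exact_mod_cast g2
    have hDr : (0 : ℝ) < D := by exact_mod_cast hD0
    rw [div_le_iff₀ (by positivity)]
    nlinarith
  -- the numbers
  set M := (Finset.range (K * D)).filter (fun m => D.Coprime (36 * m + 1)) with hM
  have hMc := count_m y K
  rw [← hD, ← hM] at hMc
  set G := (Finset.Icc 1 X).filter (fun n : ℕ => Regular Set.univ (c * Real.log n ^ 2) n ∧ NoSquare c n) with hG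
  set B := (Finset.Icc 1 X).filter (fun n => Nat.sqrt X < n ∧ ¬ NoSquare c n) with hB
  have hMG : M.card ≤ G.card + B.card + Nat.sqrt X := by
    have g1 : (M.image (fun m => 4 * m + 1)) ⊆ G ∪ B ∪ Finset.Icc 1 (Nat.sqrt X) := by
      intro n hn
      obtain ⟨m, hm, rfl⟩ := Finset.mem_image.1 hn
      obtain ⟨k1, k2⟩ := Finset.mem_filter.1 hm
      rw [Finset.mem_range] at k1
      have k3 : 4 * m + 1 ≤ X := by omega
      have k4 := regular_of hc hc1 hy1 hy7 k3 k2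
      rw [Finset.mem_union, Finset.mem_union, hG, hB, Finset.mem_filter, Finset.mem_filter, Finset.mem_Icc,
        Finset.mem_Icc]
      by_cases k5 : NoSquare c (4 * m + 1)
      · exact Or.inl (Or.inl ⟨⟨by omega, k3⟩, k4, k5⟩)
      · by_cases k6 : Nat.sqrt X < 4 * m + 1
        · exact Or.inl (Or.inr ⟨⟨by omega, k3⟩, k6, k5⟩)
        · exact Or.inr ⟨by omega, by omega⟩
    have g2 := Finset.card_le_card g1
    rw [Finset.card_image_of_injective _ (fun a b h => by omega)] at g2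
    have g3 := Finset.card_union_le (G ∪ B) (Finset.Icc 1 (Nat.sqrt X))
    have g4 := Finset.card_union_le G B
    rw [Nat.card_Icc] at g3
    omega
  have hset : {n : ℕ | n ≤ X ∧ Regular Set.univ (c * Real.log n ^ 2) n ∧ NoSquare c n} = (G : Set ℕ) := by
    ext n
    rw [Set.mem_ofPred_eq, Finset.mem_coe, hG, Finset.mem_filter, Finset.mem_Icc]
    constructor
    · rintro ⟨k1, k2, k3⟩
      exact ⟨⟨k2.1.pos, k1⟩, k2, k3⟩
    · rintro ⟨⟨-, k1⟩, k2, k3⟩
      exact ⟨k1, k2, k3⟩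
  rw [hset, Set.ncard_coe_finset]
  have hBc := square_count hc (X := X) (by
    rw [div_le_iff₀ hc] at h4
    linarith)
  rw [← hB] at hBc
  have hsq : (Nat.sqrt X : ℝ) ≤ (X : ℝ) ^ (1 / 2 : ℝ) := by
    rw [← Real.sqrt_eq_rpow]
    exact Real.nat_sqrt_le_real_sqrt
  have hphi := DD_phi y
  rw [← hD] at hphi
  have hWy : Pool.Agent.N233.GM.W y ≤ (C₁ + C₂) * Real.log (Real.log X) := by
    have g1 := hW y
    have g2 : Real.log (y : ℝ) ≤ Real.log (Real.log X) := by
      apply Real.log_le_log (by exact_mod_cast (by omega : 0 < y))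
      linarith
    nlinarith
  have hW0 := Pool.Agent.N233.GM.W_ge y
  have hKphi : (X : ℝ) / (8 * ((C₁ + C₂) * Real.log (Real.log X))) ≤ M.card := by
    have hDr : (0 : ℝ) < D := by exact_mod_cast hD0
    calc (X : ℝ) / (8 * ((C₁ + C₂) * Real.log (Real.log X))) ≤ (X : ℝ) / (8 * Pool.Agent.N233.GM.W y) := by
          gcongr
      _ = (X : ℝ) / (8 * D) * (D / Pool.Agent.N233.GM.W y) := by field_simp
      _ ≤ K * (D.totient : ℝ) := by gcongr
      _ ≤ M.card := by exact_mod_cast hMc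
  have hMG' : (M.card : ℝ) ≤ G.card + B.card + Nat.sqrt X := by exact_mod_cast hMG
  have hll0 : 0 < Real.log (Real.log (X : ℝ)) := by linarith
  have e1 : (X : ℝ) / (8 * ((C₁ + C₂) * Real.log (Real.log X))) =
      2 * (1 / (16 * (C₁ + C₂)) * (X / Real.log (Real.log X))) := by
    field_simp
    norm_num
  have e2 : 4 / c * (X / Real.log X) ≤ 1 / 2 * (1 / (16 * (C₁ + C₂)) * (X / Real.log (Real.log X))) := by
    have k1 : 1 / Real.log X ≤ (1 / (16 * (C₁ + C₂)) / (2 * (4 / c))) / Real.log (Real.log X) := by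
      rw [div_le_div_iff₀ hlX hll0]
      linarith
    calc 4 / c * (X / Real.log X) = (4 / c * X) * (1 / Real.log X) := by ring
      _ ≤ (4 / c * X) * ((1 / (16 * (C₁ + C₂)) / (2 * (4 / c))) / Real.log (Real.log X)) := by gcongr
      _ = _ := by field_simp
  have e3 : (X : ℝ) ^ (1 / 2 : ℝ) ≤ 1 / 2 * (1 / (16 * (C₁ + C₂)) * (X / Real.log (Real.log X))) := by
    have k1 : (X : ℝ) ^ (1 / 2 : ℝ) ≤ (1 / (16 * (C₁ + C₂)) / 2) * X / Real.log (Real.log X) := by
      rw [le_div_iff₀ hll0]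
      linarith
    calc (X : ℝ) ^ (1 / 2 : ℝ) ≤ (1 / (16 * (C₁ + C₂)) / 2) * X / Real.log (Real.log X) := k1
      _ = _ := by ring
  linarith

end Pool.Agent.J6H13.GS
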